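import Pool.Agent.Helper310.Ctbl
import Pool.Agent.Helper310.Recursion

set_option autoImplicit false

namespace Pool.Agent.Results.MP_f7bfdf_al.AllCardinals

universe u

/-- Every nonabelian group, of any cardinality and in any universe, all of whose finitely generated
subgroups are free has trivial Frattini subgroup. -/
theorem result {G : Type u} [Group G]
    (hfree : ∀ H : Subgroup G, H.FG → IsFreeGroup H)
    (hna : ∃ a b : G, a * b ≠ b * a) : frattini G = ⊥ := by
  by_cases hG : Cardinal.aleph0 < Cardinal.mk G
  · exact Pool.Agent.Helper310.Ctbl.frattini_eq_bot_of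
      (Pool.Agent.Helper310.Recursion.exists_of_uncountable hfree hG)
  · have : Countable G := Cardinal.mk_le_aleph0_iff.1 (not_lt.1 hG)
    exact Pool.Agent.Helper310.Ctbl.result hfree hna

end Pool.Agent.Results.MP_f7bfdf_al.AllCardinals
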